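import Pool.Agent.V8H77.NT.BoxData

/-!
# Numbers of K3 type near to supersingular ones
-/

set_option autoImplicit false

open NumberField IsDedekindDomain

namespace Pool.Agent.V8H77.NT

open Module Polynomial
open Pool.Agent.V8H94.CT

/-- The Weil number `a` for `p ^ M` is of K3 type: some power `a ^ s` is an element `α` of the ring of
integers of a number field, normal over `ℚ`, such that for all prime ideals `P` but at most two the
numbers `α ^ 2` and `p ^ (M * s)` are divisible by the same powers of `P`. -/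
def K3Number (p M : ℕ) {Ω : Type} [Field Ω] [CharZero Ω] (a : Ω) : Prop :=
  ∃ (s : ℕ) (K : IntermediateField ℚ Ω) (α : 𝓞 K) (P₁ P₂ : Ideal (𝓞 K)), 0 < s ∧
    FiniteDimensional ℚ K ∧ Normal ℚ K ∧ ((α : K) : Ω) = a ^ s ∧
    ∀ P : Ideal (𝓞 K), P.IsPrime → P ≠ P₁ → P ≠ P₂ →
      ∀ n : ℕ, α ^ 2 ∈ P ^ n ↔ (p : 𝓞 K) ^ (M * s) ∈ P ^ n

variable {p : ℕ} [Fact p.Prime] {Ω : Type} [Field Ω] [CharZero Ω] [IsAlgClosed Ω]

variable {L : IntermediateField ℚ Ω} [NumberField L] {c : L ≃ₐ[ℚ] L}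

namespace GData

variable (D : GData L c) {m : ℕ}

theorem W_root' [Normal ℚ L] {b : Ω} (hm : 0 < m) (hb : b ∈ D.W p m) {z : Ω}
    (hz : aeval z (minpoly ℚ b) = 0) :
    z ∈ D.W p m ∧ ∃ g : L ≃ₐ[ℚ] L, ∀ x : PX p L, D.tau m z x = D.tau m b (actX g x) := by
  obtain ⟨x, hx⟩ := exists_lift (isAlgebraic_of_isIntegral (D.W_isWeil hm hb).1)
  obtain ⟨T, hT, h⟩ := hb
  rw [← hx] at hz
  obtain ⟨ψ, hψ⟩ := exists_emb_of_root x hz
  have hle : L ≤ algebraicClosure ℚ Ω := fun y hy =>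
    mem_algebraicClosure_iff.2 (Algebra.IsAlgebraic.isAlgebraic (R := ℚ) (⟨y, hy⟩ : L)).algebraMap
  let φ : L →ₐ[ℚ] Ω := ψ.comp (IntermediateField.inclusion hle)
  let g : L ≃ₐ[ℚ] L := Normal.algHomEquivAut ℚ Ω L φ
  have hg : ∀ y : L, φ y = ((g y : L) : Ω) := by
    intro y
    have h1 : (Normal.algHomEquivAut ℚ Ω L).symm g = φ := Equiv.symm_apply_apply _ _
    rw [← h1]
    rfl
  have h2 : z ^ m = ((D.Theta m (fun x => T (actX g⁻¹ x)) : L) : Ω) := by
    rw [← hψ, ← map_pow]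
    have h3 : x ^ m = IntermediateField.inclusion hle (D.Theta m T) := by
      apply Subtype.ext
      push_cast
      rw [hx, h]
      rfl
    rw [h3]
    change φ (D.Theta m T) = _
    rw [hg]
    congr 1
    rw [Theta, Theta, map_mul, map_pow, map_natCast, D.g_G]
  refine ⟨⟨_, D.box_act hT g⁻¹, h2⟩, g⁻¹, fun x => ?_⟩
  rw [D.tau_eq (D.box_act hT g⁻¹) h2, D.tau_eq hT h]

omit [IsAlgClosed Ω] in
theorem k3 [Normal ℚ L] {b : Ω} (hm : 0 < m) (hb : b ∈ D.W p m) (x : PX p L)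
    (h : ∀ y, y ≠ x → y ≠ actX c x → D.tau m b y = 0) : K3Number p (2 * D.h) b := by
  obtain ⟨h1, h2⟩ := D.tau_spec hb
  have hp := p_ne (p := p) (L := L)
  have hint := D.isIntegral_Theta h1
  let T : PX p L → ℤ := D.tau m b
  refine ⟨m, L, ⟨D.Theta m T, hint⟩, x.1.asIdeal, (act c x.1).asIdeal, hm, inferInstance,
    inferInstance, h2.symm, ?_⟩
  intro P hP hP1 hP2 n
  have hθ : D.Theta m T ≠ 0 := mul_ne_zero (pow_ne_zero _ hp) (D.G_ne_zero T)
  let α : 𝓞 L := ⟨D.Theta m T, hint⟩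
  have hα0 : α ≠ 0 := by
    intro h0
    exact hθ (congrArg (fun y : 𝓞 L => (y : L)) h0)
  have hp0 : (p : 𝓞 L) ≠ 0 := Nat.cast_ne_zero.2 (Fact.out : p.Prime).ne_zero
  change α ^ 2 ∈ P ^ n ↔ _
  by_cases hbot : P = ⊥
  · rcases Nat.eq_zero_or_pos n with rfl | hn
    · simp
    · rw [hbot, Ideal.bot_pow hn.ne']
      simp only [Ideal.mem_bot]
      exact ⟨fun h3 => absurd h3 (pow_ne_zero 2 hα0), fun h3 => absurd h3 (pow_ne_zero _ hp0)⟩
  let v : Pl L := ⟨P, hP, hbot⟩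
  change α ^ 2 ∈ v.asIdeal ^ n ↔ (p : 𝓞 L) ^ (2 * D.h * m) ∈ v.asIdeal ^ n
  rw [← le_ord_iff v (pow_ne_zero 2 hα0), ← le_ord_iff v (pow_ne_zero _ hp0)]
  have e1 : ((α ^ 2 : 𝓞 L) : L) = (D.Theta m T) ^ 2 := by
    rw [RingOfIntegers.coe_eq_algebraMap, map_pow]; rfl
  have e2 : (((p : 𝓞 L) ^ (2 * D.h * m) : 𝓞 L) : L) = (p : L) ^ (2 * D.h * m) := by
    rw [RingOfIntegers.coe_eq_algebraMap, map_pow, map_natCast]
  rw [e1, e2, ord_pow v hθ, ord_pow v hp, Theta, ord_mul v (pow_ne_zero _ hp) (D.G_ne_zero T),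
    ord_pow v hp]
  have hG : ord v (D.G T) = 0 := by
    by_cases hv : ord v (p : L) = 0
    · exact D.ord_G_other T hv
    · let y : PX p L := ⟨v, hv⟩
      have h3 : ord v (D.G T) = D.h * T y := D.ord_G h1.1 y
      have h4 : T y = 0 := by
        refine h y ?_ ?_
        · rintro h5
          apply hP1
          rw [← h5]
        · rintro h5
          apply hP2
          have h6 : v = act c x.1 := congrArg Subtype.val h5
          rw [← h6]
      rw [h3, h4, mul_zero]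
  rw [hG]
  have e3 : ((2 : ℕ) : ℤ) * ((m * D.h : ℕ) * ord v (p : L) + 0) =
      ((2 * D.h * m : ℕ) : ℤ) * ord v (p : L) := by push_cast; ring
  rw [e3]

omit [IsAlgClosed Ω] in
theorem near {b : Ω} {N : ℕ} (hN : 0 < N) (hNm : N ≤ m) (hb : b ∈ D.W p m)
    (h : ∀ y : PX p L, |D.tau m b y| ≤ 1) :
    IsIntegral ℤ (b ^ (2 * N) / (p : Ω) ^ (2 * D.h * (N - 1))) := by
  obtain ⟨h1, h2⟩ := D.tau_spec hb
  have hp := p_ne (p := p) (L := L)
  have hpΩ : (p : Ω) ≠ 0 := Nat.cast_ne_zero.2 (Fact.out : p.Prime).ne_zero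
  let T : PX p L → ℤ := D.tau m b
  refine IsIntegral.of_pow (lt_of_lt_of_le hN hNm) ?_
  let y : L := (p : L) ^ (2 * D.h * m) * (D.G T) ^ (2 * N)
  have hy0 : y ≠ 0 := mul_ne_zero (pow_ne_zero _ hp) (pow_ne_zero _ (D.G_ne_zero T))
  have hy : ((y : L) : Ω) = (b ^ (2 * N) / (p : Ω) ^ (2 * D.h * (N - 1))) ^ m := by
    have h3 : (b ^ (2 * N) / (p : Ω) ^ (2 * D.h * (N - 1))) ^ m =
        (b ^ m) ^ (2 * N) / (p : Ω) ^ (2 * D.h * (N - 1) * m) := by
      rw [div_pow, ← pow_mul, ← pow_mul, ← pow_mul, mul_comm (2 * N) m]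
    rw [h3, h2, Theta, eq_div_iff (pow_ne_zero _ hpΩ)]
    change (((p : L) ^ (2 * D.h * m) * (D.G T) ^ (2 * N) : L) : Ω) * _ = _
    push_cast
    rw [mul_pow, ← pow_mul, mul_right_comm, ← pow_add]
    congr 2
    obtain ⟨k, rfl⟩ : ∃ k, N = k + 1 := ⟨N - 1, by omega⟩
    rw [Nat.add_sub_cancel]
    ring
  rw [← hy]
  have hyi : IsIntegral ℤ y := by
    refine isIntegral_of_ord hy0 fun v => ?_
    change 0 ≤ ord v ((p : L) ^ (2 * D.h * m) * (D.G T) ^ (2 * N))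
    rw [ord_mul v (pow_ne_zero _ hp) (pow_ne_zero _ (D.G_ne_zero T)), ord_pow v hp,
      ord_pow v (D.G_ne_zero T)]
    by_cases hv : ord v (p : L) = 0
    · rw [D.ord_G_other T hv, hv]; simp
    · let x : PX p L := ⟨v, hv⟩
      have h3 : ord v (D.G T) = D.h * T x := D.ord_G h1.1 x
      have h4 := eX_pos x
      have h5 := eX_eq x
      have h6 : (1 : ℤ) ≤ ord v (p : L) := by
        have h7 : (eX x : ℤ) = ord v (p : L) := h5
        omega
      have h8 := (abs_le.1 (h x)).1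
      rw [h3]
      push_cast
      have h9 : (N : ℤ) ≤ m := by exact_mod_cast hNm
      have h10 : (0 : ℤ) ≤ D.h := by positivity
      have h11 : (0 : ℤ) ≤ N := by positivity
      have h12 : (N : ℤ) ≤ m * ord v (p : L) := by nlinarith
      have h13 : -(N : ℤ) ≤ N * T x := by nlinarith
      have h14 : 0 ≤ (D.h : ℤ) * (m * ord v (p : L) + N * T x) :=
        mul_nonneg h10 (by linarith)
      nlinarith
  exact hyi.map (L.val.restrictScalars ℤ)

end GData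

/-- **The box data** with small steps. -/
theorem exists_boxN (A : AbVar p Ω) {N : ℕ} (hN : 0 < N) : ∃ (κ : ℕ) (W : Set Ω) (X : Type)
    (_ : Fintype X) (inv : X → X) (e : X → ℕ) (τ : Ω → X → ℤ), IsBox p κ W inv e τ ∧ W.Finite ∧
      EigenIn (2 * κ) W A ∧
      (∀ w ∈ W, ∃ s : ℕ, 0 < s ∧ w ^ s ∈ IntermediateField.adjoin ℚ {a : Ω | HasEigen A a}) ∧
      ∀ w ∈ W, ∀ x, (∀ y, y ≠ x → y ≠ inv x → τ w y = 0) →
        (∀ y, |τ w y| ≤ 1) → ∀ z : Ω, aeval z (minpoly ℚ w) = 0 →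
          K3Number p (2 * κ) z ∧
            IsIntegral ℤ (z ^ (2 * N) / (p : Ω) ^ (2 * κ * (N - 1))) := by
  obtain ⟨f, hf, hcf⟩ := A.frob
  have hf0 : f ≠ 0 := by
    rintro rfl
    rw [Polynomial.map_zero] at hcf
    exact (LinearMap.charpoly_monic A.F).ne_zero hcf
  let S : Set Ω := f.rootSet Ω
  let L : IntermediateField ℚ Ω := IntermediateField.adjoin ℚ S
  have hSL : f.IsSplittingField ℚ L :=
    IntermediateField.adjoin_rootSet_isSplittingField (IsAlgClosed.splits _)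
  have hfd : FiniteDimensional ℚ L := Polynomial.IsSplittingField.finiteDimensional L f
  have hNor : Normal ℚ L := Normal.of_isSplittingField f
  have hNF : NumberField L := ⟨⟩
  have hG : IsGalois ℚ L := ⟨⟩
  have hroot : ∀ a : Ω, a ∈ S ↔ ∃ v : A.H, v ≠ 0 ∧ A.F v = a • v := by
    intro a
    rw [eigen_iff, hcf, IsRoot.def, eval_map, ← aeval_def]
    change a ∈ f.rootSet Ω ↔ _
    rw [mem_rootSet]
    exact and_iff_right hf0
  have hS : ∀ s ∈ S, IsWeil p A.m s := by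
    intro s hs
    obtain ⟨v, hv, h⟩ := (hroot s).1 hs
    exact isWeil_of_eigen A hv h
  obtain ⟨c, hc⟩ := exists_conj (L := L) rfl hS
  obtain ⟨D⟩ := exists_GData hc
  have hmA := A.m_pos
  let m := A.m * N
  have hm : 0 < m := Nat.mul_pos hmA hN
  have hNm : N ≤ m := Nat.le_mul_of_pos_left N hmA
  refine ⟨D.h, D.W p m, PX p L, inferInstance, actX c, fun x => m * eX x, D.tau m,
    ⟨D.h_pos, D.act_c_c, fun x => congrArg (m * ·) (eX_act c x), fun w hw => D.W_isWeil hm hw,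
      fun w hw z hz => D.W_root hm hw hz, ⟨_, D.box_zero, D.base_pow⟩,
      D.tau_eq D.box_zero D.base_pow, ?_, ?_, ?_, ?_, ?_, fun s hs => D.rel_iff hm s hs, ?_⟩,
    D.W_finite hm, ?_, ?_, ?_⟩
  · intro w hw
    obtain ⟨h1, h2⟩ := D.tau_spec hw
    exact ⟨_, D.box_neg h1, D.dual_pow h1 h2⟩
  · intro w hw
    obtain ⟨h1, h2⟩ := D.tau_spec hw
    exact D.tau_eq (D.box_neg h1) (D.dual_pow h1 h2)
  · intro w hw x
    exact (D.tau_spec hw).1.1 x
  · intro w hw x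
    push_cast
    exact (D.tau_spec hw).1.2 x
  · intro T hT1 hT2
    have hT : D.IsBox m T := ⟨hT1, fun x => by
      have := hT2 x
      push_cast at this
      exact this⟩
    obtain ⟨b, hb⟩ := IsAlgClosed.exists_pow_nat_eq ((D.Theta m T : L) : Ω) hm
    exact ⟨b, ⟨T, hT, hb⟩, D.tau_eq hT hb⟩
  · intro s hs r hint x
    refine D.int_bound s hs r ?_ x
    rw [← pow_mul]
    have e1 : D.h * (2 * r) = 2 * D.h * r := by ring
    rwa [e1]
  · intro a v hv h
    have haS : a ∈ S := (hroot a).2 ⟨v, hv, h⟩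
    have haL : a ∈ L := IntermediateField.subset_adjoin ℚ S haS
    have hw := hS a haS
    have hint : IsIntegral ℤ (⟨a, haL⟩ : L) :=
      (isIntegral_algHom_iff (L.val.restrictScalars ℤ) L.val.injective).1 hw.1
    have hmul := mul_conj_of_isWeil hc (x := ⟨a, haL⟩) hw
    obtain ⟨T, hT1, hT2, hT3⟩ := D.decomp_weil (a := (⟨a, haL⟩ : L) ^ N) (m := m) (hint.pow N) (by
      rw [map_pow, ← mul_pow, hmul, ← pow_mul])
    have hT : D.IsBox m T := ⟨hT1, hT2⟩
    obtain ⟨b, hb⟩ := IsAlgClosed.exists_pow_nat_eq ((D.Theta m T : L) : Ω) hm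
    refine ⟨b, ⟨T, hT, hb⟩, N * (2 * D.h), m, Nat.mul_pos hN (Nat.mul_pos two_pos D.h_pos), hm, ?_,
      ?_⟩
    · change N * (2 * D.h) * A.m = A.m * N * (2 * D.h)
      ring
    · rw [hb, pow_mul]
      exact congrArg (fun y : L => (y : Ω)) hT3
  · intro w hw
    have hSe : S = {a : Ω | HasEigen A a} := Set.ext hroot
    rw [← hSe]
    refine ⟨m, hm, ?_⟩
    rw [(D.tau_spec hw).2]
    exact (D.Theta m (D.tau m w) : L).2
  · intro w hw x hx hx1 z hz
    obtain ⟨hzW, g, hg⟩ := D.W_root' hm hw hz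
    refine ⟨D.k3 hm hzW (actX g⁻¹ x) fun y hy hy' => ?_, D.near hN hNm hzW fun y => ?_⟩
    · rw [hg]
      refine hx _ ?_ ?_
      · rintro h0
        apply hy
        rw [← h0, ← actX_mul, inv_mul_cancel, actX_one]
      · rintro h0
        apply hy'
        have h3 : y = actX g⁻¹ (actX c x) := by
          rw [← h0, ← actX_mul, inv_mul_cancel, actX_one]
        rw [h3]
        exact Subtype.ext (D.conj.act_comm g⁻¹ x.1)
    · rw [hg]
      exact hx1 _

/-- The box data, with the field generated by powers of the numbers. -/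
theorem exists_isBox' (A : AbVar p Ω) : ∃ (κ : ℕ) (W : Set Ω) (X : Type) (_ : Fintype X)
    (inv : X → X) (e : X → ℕ) (τ : Ω → X → ℤ), IsBox p κ W inv e τ ∧ W.Finite ∧
      EigenIn (2 * κ) W A ∧
      ∀ w ∈ W, ∃ s : ℕ, 0 < s ∧ w ^ s ∈ IntermediateField.adjoin ℚ {a : Ω | HasEigen A a} := by
  obtain ⟨κ, W, X, hX, inv, e, τ, h1, h2, h3, h4, _⟩ := exists_boxN A one_pos
  exact ⟨κ, W, X, hX, inv, e, τ, h1, h2, h3, h4⟩

end Pool.Agent.V8H77.NT
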