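import Pool.Agent.V8H77.NT.Theta
import Pool.Agent.V8H94.CT.WN
import Pool.Agent.V8H94.CT.Comb2

/-!
# The Weil numbers with given slopes
-/

set_option autoImplicit false

open NumberField IsDedekindDomain

namespace Pool.Agent.V8H77.NT

open Module Polynomial
open Pool.Agent.V8H94.CT

variable {p : ℕ} [Fact p.Prime] {Ω : Type} [Field Ω] [CharZero Ω] [IsAlgClosed Ω]

omit [IsAlgClosed Ω] in
theorem minpoly_coe {L : IntermediateField ℚ Ω} (x : L) : minpoly ℚ (x : Ω) = minpoly ℚ x :=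
  minpoly.algebraMap_eq (algebraMap L Ω).injective x

omit [IsAlgClosed Ω] in
theorem root_of_sigma {L : IntermediateField ℚ Ω} (σ : L →+* ℂ) (x : L) :
    aeval (σ x) (minpoly ℚ (x : Ω)) = 0 := by
  rw [minpoly_coe]
  have h := Polynomial.aeval_algHom_apply (σ.toRatAlgHom) x (minpoly ℚ x)
  rw [minpoly.aeval, map_zero] at h
  exact h

omit [IsAlgClosed Ω] in
theorem exists_sigma {L : IntermediateField ℚ Ω} [NumberField L] (x : L) {z : ℂ}
    (hz : aeval z (minpoly ℚ (x : Ω)) = 0) : ∃ σ : L →+* ℂ, σ x = z := by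
  rw [minpoly_coe] at hz
  have h2 : z ∈ (minpoly ℚ x).rootSet ℂ := by
    rw [mem_rootSet]
    exact ⟨minpoly.ne_zero (Algebra.IsIntegral.isIntegral (R := ℚ) x), hz⟩
  rw [← NumberField.Embeddings.range_eval_eq_rootSet_minpoly] at h2
  exact h2

omit [IsAlgClosed Ω] in
theorem hasAbs_of_field {L : IntermediateField ℚ Ω} [NumberField L] {x : L} {r : ℝ}
    (h : ∀ σ : L →+* ℂ, ‖σ x‖ = r) : HasAbs r (x : Ω) := by
  refine ⟨?_, fun z hz => ?_⟩
  · exact (Algebra.IsAlgebraic.isAlgebraic (R := ℚ) x).algebraMap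
  · obtain ⟨σ, rfl⟩ := exists_sigma x hz
    exact h σ

omit [Fact p.Prime] [IsAlgClosed Ω] in
theorem isWeil_norm {L : IntermediateField ℚ Ω} {M : ℕ} {x : L} (hx : IsWeil p M (x : Ω))
    (σ : L →+* ℂ) : ‖σ x‖ ^ 2 = (p : ℝ) ^ M := hx.2 _ (root_of_sigma σ x)

omit [IsAlgClosed Ω] in
/-- Complex conjugation on a field generated by Weil numbers. -/
theorem exists_conj {S : Set Ω} {L : IntermediateField ℚ Ω} [NumberField L] [IsGalois ℚ L]
    (hL : L = IntermediateField.adjoin ℚ S) {M : ℕ} (hS : ∀ s ∈ S, IsWeil p M s) :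
    ∃ c : L ≃ₐ[ℚ] L, IsConj c := by
  subst hL
  obtain ⟨σ₀⟩ : Nonempty (IntermediateField.adjoin ℚ S →+* ℂ) := inferInstance
  obtain ⟨g, hg⟩ := NumberField.ComplexEmbedding.exists_comp_symm_eq_of_comp_eq (k := ℚ) σ₀
    ((starRingEnd ℂ).comp σ₀) (by ext; simp)
  have hg' : ∀ x, σ₀ (g.symm x) = (starRingEnd ℂ) (σ₀ x) := fun x => RingHom.congr_fun hg x
  have hp : (p : IntermediateField.adjoin ℚ S) ≠ 0 :=
    Nat.cast_ne_zero.2 (Fact.out : p.Prime).ne_zero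
  have hnorm : ∀ (s : Ω) (hs : s ∈ S) (σ : IntermediateField.adjoin ℚ S →+* ℂ),
      σ ⟨s, IntermediateField.subset_adjoin ℚ S hs⟩ *
        (starRingEnd ℂ) (σ ⟨s, IntermediateField.subset_adjoin ℚ S hs⟩) = (p : ℂ) ^ M := by
    intro s hs σ
    have h1 := isWeil_norm (x := ⟨s, IntermediateField.subset_adjoin ℚ S hs⟩) (hS s hs) σ
    rw [Complex.mul_conj, Complex.normSq_eq_norm_sq, h1]
    push_cast
    rfl
  refine ⟨g.symm, fun σ x => ?_⟩
  obtain ⟨x, hx⟩ := x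
  refine IntermediateField.adjoin_induction ℚ
    (p := fun x hx => σ (g.symm ⟨x, hx⟩) = (starRingEnd ℂ) (σ ⟨x, hx⟩)) ?_ ?_ ?_ ?_ ?_ hx
  · intro s hs
    have h0 : (⟨s, IntermediateField.subset_adjoin ℚ S hs⟩ : IntermediateField.adjoin ℚ S) *
        g.symm ⟨s, IntermediateField.subset_adjoin ℚ S hs⟩ = (p : IntermediateField.adjoin ℚ S) ^ M := by
      apply σ₀.injective
      rw [map_mul, hg', hnorm s hs σ₀, map_pow, map_natCast]
    have h1 := congrArg σ h0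
    rw [map_mul, map_pow, map_natCast, ← hnorm s hs σ] at h1
    have h2 : σ ⟨s, IntermediateField.subset_adjoin ℚ S hs⟩ ≠ 0 := by
      intro h3
      have h4 := hnorm s hs σ
      rw [h3, zero_mul] at h4
      exact pow_ne_zero M (Nat.cast_ne_zero.2 (Fact.out : p.Prime).ne_zero) h4.symm
    exact mul_left_cancel₀ h2 h1
  · intro q
    have e : (⟨algebraMap ℚ Ω q, IntermediateField.algebraMap_mem _ q⟩ :
        IntermediateField.adjoin ℚ S) = algebraMap ℚ _ q := rfl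
    rw [e, AlgEquiv.commutes]
    simp
  · intro a b ha hb h1 h2
    have e : (⟨a + b, add_mem ha hb⟩ : IntermediateField.adjoin ℚ S) = ⟨a, ha⟩ + ⟨b, hb⟩ := rfl
    rw [e, map_add, map_add, map_add, map_add, h1, h2]
  · intro a ha h1
    have e : (⟨a⁻¹, inv_mem ha⟩ : IntermediateField.adjoin ℚ S) = ⟨a, ha⟩⁻¹ := rfl
    rw [e, map_inv₀, map_inv₀, map_inv₀, map_inv₀, h1]
  · intro a b ha hb h1 h2
    have e : (⟨a * b, mul_mem ha hb⟩ : IntermediateField.adjoin ℚ S) = ⟨a, ha⟩ * ⟨b, hb⟩ := rfl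
    rw [e, map_mul, map_mul, map_mul, map_mul, h1, h2]

omit [Fact p.Prime] [IsAlgClosed Ω] in
theorem mul_conj_of_isWeil {L : IntermediateField ℚ Ω} [NumberField L] {c : L ≃ₐ[ℚ] L}
    (hc : IsConj c) {M : ℕ} {x : L} (hx : IsWeil p M (x : Ω)) : x * c x = (p : L) ^ M := by
  obtain ⟨σ⟩ : Nonempty (L →+* ℂ) := inferInstance
  apply σ.injective
  rw [map_mul, hc, Complex.mul_conj, Complex.normSq_eq_norm_sq, isWeil_norm hx σ, map_pow,
    map_natCast]
  push_cast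
  rfl

variable {L : IntermediateField ℚ Ω} [NumberField L] {c : L ≃ₐ[ℚ] L}

namespace GData

variable (D : GData L c) (m : ℕ)

/-- The odd functions with values bounded by `m` times the ramification indices. -/
def IsBox (T : PX p L → ℤ) : Prop := D.Odd T ∧ ∀ x, |T x| ≤ m * eX x

/-- The numbers `p ^ (m * h)` times a product. -/
noncomputable def Theta (T : PX p L → ℤ) : L := (p : L) ^ (m * D.h) * D.G T

variable (p) in
/-- The `m`-th roots of the numbers `Theta`. -/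
def W : Set Ω := {b | ∃ T : PX p L → ℤ, D.IsBox m T ∧ b ^ m = ((D.Theta m T : L) : Ω)}

open Classical in
/-- The function of a number in `W`. -/
noncomputable def tau (b : Ω) : PX p L → ℤ :=
  if h : ∃ T : PX p L → ℤ, D.IsBox m T ∧ b ^ m = ((D.Theta m T : L) : Ω) then h.choose
  else fun _ => 0

variable {m}

omit [IsAlgClosed Ω] in
theorem tau_spec {b : Ω} (hb : b ∈ D.W p m) :
    D.IsBox m (D.tau m b : PX p L → ℤ) ∧ b ^ m = ((D.Theta m (D.tau m b : PX p L → ℤ) : L) : Ω) := by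
  have h : ∃ T : PX p L → ℤ, D.IsBox m T ∧ b ^ m = ((D.Theta m T : L) : Ω) := hb
  rw [tau, dif_pos h]
  exact h.choose_spec

omit [IsAlgClosed Ω] in
theorem tau_eq {b : Ω} {T : PX p L → ℤ} (hT : D.IsBox m T) (h : b ^ m = ((D.Theta m T : L) : Ω)) :
    D.tau m b = T := by
  obtain ⟨h1, h2⟩ := D.tau_spec (b := b) (m := m) ⟨T, hT, h⟩
  rw [h] at h2
  have h3 : D.Theta m T = D.Theta m (D.tau m b) := Subtype.ext h2
  rw [Theta, Theta] at h3
  have h4 := mul_left_cancel₀ (pow_ne_zero _ (p_ne (p := p) (L := L))) h3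
  exact (D.G_inj hT.1 h1.1 h4).symm

omit [IsAlgClosed Ω] in
theorem isIntegral_Theta {T : PX p L → ℤ} (hT : D.IsBox m T) : IsIntegral ℤ (D.Theta m T) := by
  have hp := p_ne (p := p) (L := L)
  refine isIntegral_of_ord (mul_ne_zero (pow_ne_zero _ hp) (D.G_ne_zero T)) fun v => ?_
  rw [Theta, ord_mul v (pow_ne_zero _ hp) (D.G_ne_zero T), ord_pow v hp]
  by_cases hv : ord v (p : L) = 0
  · rw [D.ord_G_other T hv, hv]; simp
  · let x : PX p L := ⟨v, hv⟩
    have h1 := D.ord_G hT.1 x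
    have h2 := hT.2 x
    rw [eX_eq x] at h2
    change ord v (D.G T) = _ at h1
    change |_| ≤ (m : ℤ) * ord v (p : L) at h2
    rw [h1]
    have h3 := (abs_le.1 h2).1
    have h4 : (0 : ℤ) ≤ D.h := by positivity
    push_cast
    nlinarith

omit [IsAlgClosed Ω] in
theorem norm_G (T : PX p L → ℤ) (σ : L →+* ℂ) : ‖σ (D.G T)‖ = 1 :=
  D.conj.norm_one (D.G_ne_zero T) (D.c_G T) σ

omit [IsAlgClosed Ω] in
theorem norm_Theta (T : PX p L → ℤ) (σ : L →+* ℂ) : ‖σ (D.Theta m T)‖ = (p : ℝ) ^ (m * D.h) := by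
  rw [Theta, map_mul, norm_mul, D.norm_G, mul_one, map_pow, map_natCast, norm_pow,
    Complex.norm_natCast]

theorem W_isWeil (hm : 0 < m) {b : Ω} (hb : b ∈ D.W p m) : IsWeil p (2 * D.h) b := by
  obtain ⟨T, hT, h⟩ := hb
  have h1 : HasAbs ((p : ℝ) ^ D.h) b := by
    refine HasAbs.root (by positivity) hm ?_
    rw [h, ← pow_mul, mul_comm D.h m]
    exact hasAbs_of_field (D.norm_Theta T)
  refine ⟨IsIntegral.of_pow hm ?_, fun z hz => ?_⟩
  · rw [h]
    exact (D.isIntegral_Theta hT).map (L.val.restrictScalars ℤ)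
  · rw [h1.2 z hz, ← pow_mul, mul_comm]

omit [IsAlgClosed Ω] in
theorem W_finite (hm : 0 < m) : (D.W p m).Finite := by
  classical
  have h1 : {T : PX p L → ℤ | D.IsBox m T}.Finite := by
    refine (Set.finite_Icc (fun x : PX p L => -((m : ℤ) * eX x)) (fun x => (m : ℤ) * eX x)).subset ?_
    intro T hT
    rw [Set.mem_Icc, Pi.le_def, Pi.le_def]
    exact ⟨fun x => (abs_le.1 (hT.2 x)).1, fun x => (abs_le.1 (hT.2 x)).2⟩
  refine (h1.biUnion fun T _ => (nthRoots m ((D.Theta m T : L) : Ω)).toFinset.finite_toSet).subset ?_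
  rintro b ⟨T, hT, h⟩
  rw [Set.mem_iUnion₂]
  refine ⟨T, hT, ?_⟩
  rw [Finset.mem_coe, Multiset.mem_toFinset, mem_nthRoots hm]
  exact h

omit [IsAlgClosed Ω] in
theorem box_act {T : PX p L → ℤ} (hT : D.IsBox m T) (g : L ≃ₐ[ℚ] L) :
    D.IsBox m (fun x => T (actX g x)) := by
  refine ⟨fun x => ?_, fun x => ?_⟩
  · have : actX g (actX c x) = actX c (actX g x) := Subtype.ext (D.conj.act_comm g x.1)
    change T (actX g (actX c x)) = - T (actX g x)
    rw [this, hT.1]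
  · have := hT.2 (actX g x)
    rwa [eX_act] at this

theorem W_root [Normal ℚ L] {b : Ω} (hm : 0 < m) (hb : b ∈ D.W p m) {z : Ω}
    (hz : aeval z (minpoly ℚ b) = 0) : z ∈ D.W p m := by
  obtain ⟨x, hx⟩ := exists_lift (isAlgebraic_of_isIntegral (D.W_isWeil hm hb).1)
  obtain ⟨T, hT, h⟩ := hb
  rw [← hx] at hz
  obtain ⟨ψ, hψ⟩ := exists_emb_of_root x hz
  have hle : L ≤ algebraicClosure ℚ Ω := fun y hy =>
    mem_algebraicClosure_iff.2 (Algebra.IsAlgebraic.isAlgebraic (R := ℚ) (⟨y, hy⟩ : L)).algebraMap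
  let φ : L →ₐ[ℚ] Ω := ψ.comp (IntermediateField.inclusion hle)
  let g : L ≃ₐ[ℚ] L := Normal.algHomEquivAut ℚ Ω L φ
  have hg : ∀ y : L, φ y = ((g y : L) : Ω) := by
    intro y
    have h1 : (Normal.algHomEquivAut ℚ Ω L).symm g = φ := Equiv.symm_apply_apply _ _
    rw [← h1]
    rfl
  have h2 : z ^ m = ((D.Theta m (fun x => T (actX g⁻¹ x)) : L) : Ω) := by
    rw [← hψ, ← map_pow]
    have h3 : x ^ m = IntermediateField.inclusion hle (D.Theta m T) := by
      apply Subtype.ext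
      push_cast
      rw [hx, h]
      rfl
    rw [h3]
    change φ (D.Theta m T) = _
    rw [hg]
    congr 1
    rw [Theta, Theta, map_mul, map_pow, map_natCast, D.g_G]
  exact ⟨_, D.box_act hT g⁻¹, h2⟩

omit [IsAlgClosed Ω] in
theorem base_pow : ((p : Ω) ^ D.h) ^ m = ((D.Theta m (fun _ : PX p L => 0) : L) : Ω) := by
  rw [Theta, D.G_zero, mul_one]
  push_cast
  rw [← pow_mul, mul_comm]

omit [IsAlgClosed Ω] in
theorem box_zero : D.IsBox m (fun _ : PX p L => 0) :=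
  ⟨fun x => by simp, fun x => by simp only [abs_zero]; positivity⟩

omit [IsAlgClosed Ω] in
theorem dual_pow {b : Ω} {T : PX p L → ℤ} (hT : D.IsBox m T)
    (h : b ^ m = ((D.Theta m T : L) : Ω)) :
    ((p : Ω) ^ (2 * D.h) / b) ^ m = ((D.Theta m (fun x => - T x) : L) : Ω) := by
  have hp : (p : Ω) ≠ 0 := Nat.cast_ne_zero.2 (Fact.out : p.Prime).ne_zero
  have hG : ((D.G T : L) : Ω) ≠ 0 := by
    intro h0
    exact D.G_ne_zero T (Subtype.ext h0)
  rw [div_pow, h, Theta, Theta, D.G_neg hT.1]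
  push_cast
  rw [← pow_mul]
  have e : 2 * D.h * m = m * D.h + m * D.h := by ring
  rw [e, pow_add]
  field_simp

omit [IsAlgClosed Ω] in
theorem box_neg {T : PX p L → ℤ} (hT : D.IsBox m T) : D.IsBox m (fun x => - T x) :=
  ⟨fun x => by
    change - T (actX c x) = - - T x
    rw [hT.1 x], fun x => by
    change |- T x| ≤ _
    rw [abs_neg]
    exact hT.2 x⟩

omit [IsAlgClosed Ω] in
/-- Products of elements of `W`. -/
theorem prod_pow (s : Multiset Ω) (hs : ∀ b ∈ s, b ∈ D.W p m) : ∃ g : L, g ≠ 0 ∧ c g = g⁻¹ ∧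
    (∀ w, ord w (p : L) = 0 → ord w g = 0) ∧
    (∀ x : PX p L, ord x.1 g = D.h * (s.map (D.tau m)).sum x) ∧
    s.prod ^ m = (p : Ω) ^ (m * D.h * Multiset.card s) * (g : Ω) := by
  induction s using Multiset.induction_on with
  | empty => exact ⟨1, one_ne_zero, by simp, fun w _ => ord_one w, fun x => by simp [ord_one],
      by simp⟩
  | cons b s ih =>
    obtain ⟨g, h1, h2, h3, h4, h5⟩ := ih fun b' hb' => hs b' (Multiset.mem_cons_of_mem hb')
    obtain ⟨h6, h7⟩ := D.tau_spec (hs b (Multiset.mem_cons_self b s))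
    have hG := D.G_ne_zero (D.tau m b : PX p L → ℤ)
    refine ⟨D.G (D.tau m b : PX p L → ℤ) * g, mul_ne_zero hG h1, ?_, ?_, ?_, ?_⟩
    · rw [map_mul, h2, D.c_G, mul_inv]
    · intro w hw
      rw [ord_mul w hG h1, h3 w hw, D.ord_G_other _ hw, add_zero]
    · intro x
      rw [ord_mul x.1 hG h1, h4 x, D.ord_G h6.1 x, Multiset.map_cons, Multiset.sum_cons,
        Pi.add_apply]
      ring
    · rw [Multiset.prod_cons, mul_pow, h5, h7, Multiset.card_cons, Theta, mul_add, mul_one,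
        pow_add]
      push_cast
      ring

omit [IsAlgClosed Ω] in
theorem rel_iff (hm : 0 < m) (s : Multiset Ω) (hs : ∀ b ∈ s, b ∈ D.W p m) :
    (∃ k : ℕ, 0 < k ∧ s.prod ^ k = (((p : Ω) ^ D.h) ^ Multiset.card s) ^ k) ↔
      (s.map (D.tau m : Ω → PX p L → ℤ)).sum = 0 := by
  obtain ⟨g, h1, h2, h3, h4, h5⟩ := D.prod_pow s hs
  have hp : (p : Ω) ≠ 0 := Nat.cast_ne_zero.2 (Fact.out : p.Prime).ne_zero
  have hh : (D.h : ℤ) ≠ 0 := by
    have := D.h_pos
    omega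
  constructor
  · rintro ⟨k, hk, h⟩
    have h6 : g ^ k = 1 := by
      have h7 : (s.prod ^ m) ^ k = ((((p : Ω) ^ D.h) ^ Multiset.card s) ^ k) ^ m := by
        rw [← h, ← pow_mul, ← pow_mul, mul_comm]
      have h8 : ((((p : Ω) ^ D.h) ^ Multiset.card s) ^ k) ^ m =
          ((p : Ω) ^ (m * D.h * Multiset.card s)) ^ k := by
        simp only [← pow_mul]
        congr 1
        ring
      rw [h5, mul_pow, h8] at h7
      have h9 : ((g : Ω)) ^ k = 1 := by
        have h10 : ((p : Ω) ^ (m * D.h * Multiset.card s)) ^ k ≠ 0 :=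
          pow_ne_zero _ (pow_ne_zero _ hp)
        exact mul_left_cancel₀ h10 (by rw [h7, mul_one])
      exact_mod_cast h9
    funext x
    have h7 := ord_pow x.1 h1 k
    rw [h6, ord_one, h4 x] at h7
    have hk' : (k : ℤ) ≠ 0 := by omega
    rcases mul_eq_zero.1 h7.symm with h8 | h8
    · exact absurd h8 hk'
    · rcases mul_eq_zero.1 h8 with h9 | h9
      · exact absurd h9 hh
      · rw [h9]; rfl
  · intro h
    have h6 : ∃ k : ℕ, 0 < k ∧ g ^ k = 1 := by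
      refine kron h1 (fun σ => D.conj.norm_one h1 h2 σ) fun v => ?_
      by_cases hv : ord v (p : L) = 0
      · exact h3 v hv
      · let x : PX p L := ⟨v, hv⟩
        have := h4 x
        rw [h, Pi.zero_apply, mul_zero] at this
        exact this
    obtain ⟨k, hk, hg⟩ := h6
    refine ⟨m * k, Nat.mul_pos hm hk, ?_⟩
    rw [pow_mul, h5, mul_pow]
    have h9 : ((g : Ω)) ^ k = 1 := by exact_mod_cast congrArg (fun y : L => (y : Ω)) hg
    rw [h9, mul_one]
    simp only [← pow_mul]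
    congr 1
    ring

omit [IsAlgClosed Ω] in
theorem int_bound (s : Multiset Ω) (hs : ∀ b ∈ s, b ∈ D.W p m) (r : ℕ)
    (hint : IsIntegral ℤ (s.prod / ((p : Ω) ^ D.h) ^ (2 * r))) (x : PX p L) :
    |(s.map (D.tau m : Ω → PX p L → ℤ)).sum x| ≤
      ((Multiset.card s : ℤ) - 2 * r) * (m * eX x : ℕ) := by
  obtain ⟨g, h1, h2, h3, h4, h5⟩ := D.prod_pow s hs
  have hp : (p : Ω) ≠ 0 := Nat.cast_ne_zero.2 (Fact.out : p.Prime).ne_zero
  have hpL := p_ne (p := p) (L := L)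
  have hh : (0 : ℤ) < D.h := by
    have := D.h_pos
    omega
  let y : L := (p : L) ^ ((m : ℤ) * D.h * ((Multiset.card s : ℤ) - 2 * r)) * g
  have hy0 : y ≠ 0 := mul_ne_zero (zpow_ne_zero _ hpL) h1
  have hy : ((y : L) : Ω) = (s.prod / ((p : Ω) ^ D.h) ^ (2 * r)) ^ m := by
    change (((p : L) ^ ((m : ℤ) * D.h * ((Multiset.card s : ℤ) - 2 * r)) * g : L) : Ω) = _
    have hz : ∀ z : ℤ, (((p : L) ^ z : L) : Ω) = (p : Ω) ^ z := fun z => by
      rw [show (((p : L) ^ z : L) : Ω) = L.val ((p : L) ^ z) from rfl, map_zpow₀, map_natCast]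
    have hmul : (((p : L) ^ ((m : ℤ) * D.h * ((Multiset.card s : ℤ) - 2 * r)) * g : L) : Ω) =
        (((p : L) ^ ((m : ℤ) * D.h * ((Multiset.card s : ℤ) - 2 * r)) : L) : Ω) * (g : Ω) := rfl
    rw [hmul, hz, div_pow, h5, ← pow_mul, ← pow_mul]
    have e : (m : ℤ) * D.h * ((Multiset.card s : ℤ) - 2 * r) =
      ((m * D.h * Multiset.card s : ℕ) : ℤ) - ((D.h * (2 * r) * m : ℕ) : ℤ) := by
      push_cast; ring
    rw [e, zpow_sub₀ hp, zpow_natCast, zpow_natCast]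
    field_simp
    ring
  have hyi : IsIntegral ℤ y := by
    have h6 : IsIntegral ℤ ((y : L) : Ω) := by
      rw [hy]; exact hint.pow m
    exact (isIntegral_algHom_iff (L.val.restrictScalars ℤ) L.val.injective).1 h6
  have key : ∀ x : PX p L, -(((Multiset.card s : ℤ) - 2 * r) * (m * eX x : ℕ)) ≤
      (s.map (D.tau m : Ω → PX p L → ℤ)).sum x := by
    intro x
    have h6 := ord_nonneg x.1 hy0 hyi
    have h7 : ord x.1 y = (m : ℤ) * D.h * ((Multiset.card s : ℤ) - 2 * r) * eX x +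
        D.h * (s.map (D.tau m : Ω → PX p L → ℤ)).sum x := by
      change ord x.1 ((p : L) ^ ((m : ℤ) * D.h * ((Multiset.card s : ℤ) - 2 * r)) * g) = _
      rw [ord_mul x.1 (zpow_ne_zero _ hpL) h1, ord_zpow x.1 hpL, h4 x, eX_eq]
    rw [h7] at h6
    have h8 : 0 ≤ (D.h : ℤ) * ((m : ℤ) * ((Multiset.card s : ℤ) - 2 * r) * eX x +
        (s.map (D.tau m : Ω → PX p L → ℤ)).sum x) := by
      calc (0 : ℤ) ≤ _ := h6
        _ = _ := by ring
    have h9 := nonneg_of_mul_nonneg_right h8 hh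
    push_cast
    linarith
  have hodd : (s.map (D.tau m : Ω → PX p L → ℤ)).sum (actX c x) =
      - (s.map (D.tau m : Ω → PX p L → ℤ)).sum x := by
    have h6 := D.conj.ord_odd x.1 h1 h2
    have h7 := h4 (actX c x)
    change ord (act c x.1) g = _ at h7
    rw [h7, h4 x] at h6
    have h8 : (D.h : ℤ) * (s.map (D.tau m : Ω → PX p L → ℤ)).sum (actX c x) =
      D.h * (- (s.map (D.tau m : Ω → PX p L → ℤ)).sum x) := by rw [h6]; ring
    exact mul_left_cancel₀ hh.ne' h8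
  rw [abs_le]
  refine ⟨key x, ?_⟩
  have h6 := key (actX c x)
  rw [hodd, eX_act] at h6
  linarith

end GData

/-- **The box data** of an abelian variety. -/
theorem exists_box (A : AbVar p Ω) : ∃ (κ : ℕ) (W : Set Ω) (X : Type) (_ : Fintype X)
    (inv : X → X) (e : X → ℕ) (τ : Ω → X → ℤ), 0 < κ ∧ (∀ x, inv (inv x) = x) ∧
    (∀ x, e (inv x) = e x) ∧ (∀ x, 0 < e x) ∧
    W.Finite ∧ (∀ w ∈ W, IsWeil p (2 * κ) w) ∧
    (∀ w ∈ W, ∀ z : Ω, aeval z (minpoly ℚ w) = 0 → z ∈ W) ∧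
    ((p : Ω) ^ κ ∈ W ∧ τ ((p : Ω) ^ κ) = 0) ∧
    (∀ w ∈ W, (p : Ω) ^ (2 * κ) / w ∈ W ∧ τ ((p : Ω) ^ (2 * κ) / w) = - τ w) ∧
    (∀ w ∈ W, ∀ x, τ w (inv x) = - τ w x ∧ |τ w x| ≤ e x) ∧
    (∀ T : X → ℤ, (∀ x, T (inv x) = - T x) → (∀ x, |T x| ≤ e x) → ∃ w ∈ W, τ w = T) ∧
    (∀ s : Multiset Ω, (∀ w ∈ s, w ∈ W) →
      ((∃ k : ℕ, 0 < k ∧ s.prod ^ k = (((p : Ω) ^ κ) ^ Multiset.card s) ^ k) ↔
        (s.map τ).sum = 0)) ∧
    (∀ s : Multiset Ω, (∀ w ∈ s, w ∈ W) → ∀ r : ℕ,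
      IsIntegral ℤ (s.prod / ((p : Ω) ^ κ) ^ (2 * r)) → ∀ x,
        |(s.map τ).sum x| ≤ ((Multiset.card s : ℤ) - 2 * r) * e x) ∧
    (∀ (a : Ω) (v : A.H), v ≠ 0 → A.F v = a • v →
      ∃ b ∈ W, ∃ i j : ℕ, 0 < i ∧ 0 < j ∧ a ^ i = b ^ j ∧ i * A.m = j * (2 * κ)) := by
  obtain ⟨f, hf, hcf⟩ := A.frob
  have hf0 : f ≠ 0 := by
    rintro rfl
    rw [Polynomial.map_zero] at hcf
    exact (LinearMap.charpoly_monic A.F).ne_zero hcf
  let S : Set Ω := f.rootSet Ω
  let L : IntermediateField ℚ Ω := IntermediateField.adjoin ℚ S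
  have hSL : f.IsSplittingField ℚ L :=
    IntermediateField.adjoin_rootSet_isSplittingField (IsAlgClosed.splits _)
  have hfd : FiniteDimensional ℚ L := Polynomial.IsSplittingField.finiteDimensional L f
  have hN : Normal ℚ L := Normal.of_isSplittingField f
  have hNF : NumberField L := ⟨⟩
  have hG : IsGalois ℚ L := ⟨⟩
  have hroot : ∀ a : Ω, a ∈ S ↔ ∃ v : A.H, v ≠ 0 ∧ A.F v = a • v := by
    intro a
    rw [eigen_iff, hcf, IsRoot.def, eval_map, ← aeval_def]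
    change a ∈ f.rootSet Ω ↔ _
    rw [mem_rootSet]
    exact and_iff_right hf0
  have hS : ∀ s ∈ S, IsWeil p A.m s := by
    intro s hs
    obtain ⟨v, hv, h⟩ := (hroot s).1 hs
    exact isWeil_of_eigen A hv h
  obtain ⟨c, hc⟩ := exists_conj (L := L) rfl hS
  obtain ⟨D⟩ := exists_GData hc
  have hm := A.m_pos
  refine ⟨D.h, D.W p A.m, PX p L, inferInstance, actX c, fun x => A.m * eX x, D.tau A.m, D.h_pos,
    D.act_c_c, fun x => congrArg (A.m * ·) (eX_act c x), fun x => Nat.mul_pos hm (eX_pos x), D.W_finite hm,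
    fun w hw => D.W_isWeil hm hw, fun w hw z hz => D.W_root hm hw hz, ?_, ?_, ?_, ?_, ?_, ?_, ?_⟩
  · exact ⟨⟨_, D.box_zero, D.base_pow⟩, D.tau_eq D.box_zero D.base_pow⟩
  · intro w hw
    obtain ⟨h1, h2⟩ := D.tau_spec hw
    have h3 := D.dual_pow h1 h2
    exact ⟨⟨_, D.box_neg h1, h3⟩, D.tau_eq (D.box_neg h1) h3⟩
  · intro w hw x
    obtain ⟨h1, h2⟩ := D.tau_spec hw
    refine ⟨h1.1 x, ?_⟩
    push_cast
    exact h1.2 x
  · intro T hT1 hT2
    have hT : D.IsBox A.m T := ⟨hT1, fun x => by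
      have := hT2 x
      push_cast at this
      exact this⟩
    obtain ⟨b, hb⟩ := IsAlgClosed.exists_pow_nat_eq ((D.Theta A.m T : L) : Ω) hm
    exact ⟨b, ⟨T, hT, hb⟩, D.tau_eq hT hb⟩
  · intro s hs
    exact D.rel_iff hm s hs
  · intro s hs r hint x
    exact D.int_bound s hs r hint x
  · intro a v hv h
    have haS : a ∈ S := (hroot a).2 ⟨v, hv, h⟩
    have haL : a ∈ L := IntermediateField.subset_adjoin ℚ S haS
    have hw := hS a haS
    have hint : IsIntegral ℤ (⟨a, haL⟩ : L) :=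
      (isIntegral_algHom_iff (L.val.restrictScalars ℤ) L.val.injective).1 hw.1
    obtain ⟨T, hT1, hT2, hT3⟩ := D.decomp_weil hint (mul_conj_of_isWeil hc (x := ⟨a, haL⟩) hw)
    have hT : D.IsBox A.m T := ⟨hT1, hT2⟩
    obtain ⟨b, hb⟩ := IsAlgClosed.exists_pow_nat_eq ((D.Theta A.m T : L) : Ω) hm
    refine ⟨b, ⟨T, hT, hb⟩, 2 * D.h, A.m, Nat.mul_pos two_pos D.h_pos, hm, ?_, by ring⟩
    rw [hb]
    exact congrArg (fun y : L => (y : Ω)) hT3

end Pool.Agent.V8H77.NT
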