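import Pool.Agent.V8H77.NT.Box
import Pool.Agent.V8H94.CT.Gtc2

/-!
# The box data of an abelian variety
-/

set_option autoImplicit false

namespace Pool.Agent.V8H77.NT

open Module Polynomial
open Pool.Agent.V8H94.CT

variable {p : ℕ} [Fact p.Prime] {Ω : Type} [Field Ω] [CharZero Ω] [IsAlgClosed Ω]

theorem exists_isBox (A : AbVar p Ω) : ∃ (κ : ℕ) (W : Set Ω) (X : Type) (_ : Fintype X)
    (inv : X → X) (e : X → ℕ) (τ : Ω → X → ℤ), IsBox p κ W inv e τ ∧ W.Finite ∧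
      EigenIn (2 * κ) W A := by
  obtain ⟨κ, W, X, hX, inv, e, τ, h1, h2, h3, _, h5, h6, h7, h8, h9, h10, h11, h12, h13, h14⟩ :=
    exists_box A
  refine ⟨κ, W, X, hX, inv, e, τ, ⟨h1, h2, h3, h6, h7, h8.1, h8.2, fun w hw => (h9 w hw).1,
    fun w hw => (h9 w hw).2, fun w hw x => (h10 w hw x).1, fun w hw x => (h10 w hw x).2, h11, h12,
    fun s hs r hint => h13 s hs r ?_⟩, h5, fun a v hv h => ?_⟩
  · rw [← pow_mul]
    have e1 : κ * (2 * r) = 2 * κ * r := by ring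
    rwa [e1]
  · obtain ⟨b, hb, i, j, hi, hj, hab, hij⟩ := h14 a v hv h
    exact ⟨b, hb, i, j, hi, hj, hij, hab⟩

end Pool.Agent.V8H77.NT
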