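import Pool.Agent.V8H77.NT.Ord

/-!
# The elements of absolute value one attached to the places of a number field with a complex
conjugation
-/

set_option autoImplicit false

open NumberField IsDedekindDomain

namespace Pool.Agent.V8H77.NT

variable {L : Type} [Field L] [NumberField L]

/-- All roots of unity of `L` are killed by the torsion order. -/
theorem pow_torsion {u : L} (hu : ∃ k : ℕ, 0 < k ∧ u ^ k = 1) :
    u ^ NumberField.Units.torsionOrder L = 1 := by
  obtain ⟨k, hk, h⟩ := hu
  have hu0 : u ≠ 0 := by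
    rintro rfl
    rw [zero_pow hk.ne'] at h
    exact zero_ne_one h
  have hint : IsIntegral ℤ u := IsIntegral.of_pow hk (by rw [h]; exact isIntegral_one)
  have hinv : u * u ^ (k - 1) = 1 := by
    rw [← pow_succ', Nat.sub_add_cancel hk, h]
  let x : (𝓞 L)ˣ := ⟨⟨u, hint⟩, ⟨u ^ (k - 1), hint.pow _⟩, by
    apply RingOfIntegers.ext
    exact hinv, by
    apply RingOfIntegers.ext
    rw [mul_comm] at hinv
    exact hinv⟩
  have hx : x ∈ NumberField.Units.torsion L := by
    rw [NumberField.Units.torsion, CommGroup.mem_torsion, isOfFinOrder_iff_pow_eq_one]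
    refine ⟨k, hk, ?_⟩
    apply Units.ext
    apply RingOfIntegers.ext
    exact h
  rw [← NumberField.Units.rootsOfUnity_eq_torsion, mem_rootsOfUnity] at hx
  have h2 := congrArg (fun y : (𝓞 L)ˣ => ((y : 𝓞 L) : L)) hx
  exact h2

/-- `c` is the complex conjugation for all embeddings of `L` into the complex numbers. -/
def IsConj (c : L ≃ₐ[ℚ] L) : Prop :=
  ∀ (σ : L →+* ℂ) (x : L), σ (c x) = (starRingEnd ℂ) (σ x)

section

variable {c : L ≃ₐ[ℚ] L} (hc : IsConj c)

include hc

theorem IsConj.comm (g : L ≃ₐ[ℚ] L) (x : L) : g (c x) = c (g x) := by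
  obtain ⟨σ⟩ : Nonempty (L →+* ℂ) := inferInstance
  apply σ.injective
  have h1 := hc (σ.comp (g : L →+* L)) x
  have h2 := hc σ (g x)
  rw [h2]
  exact h1

theorem IsConj.invol (x : L) : c (c x) = x := by
  obtain ⟨σ⟩ : Nonempty (L →+* ℂ) := inferInstance
  apply σ.injective
  rw [hc, hc, Complex.conj_conj]

theorem IsConj.act_invol (v : Pl L) : act c (act c v) = v := by
  rw [← act_mul]
  have : c * c = 1 := by
    ext x
    exact hc.invol x
  rw [this, act_one]

theorem IsConj.act_comm (g : L ≃ₐ[ℚ] L) (v : Pl L) : act g (act c v) = act c (act g v) := by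
  rw [← act_mul, ← act_mul]
  have : g * c = c * g := by
    ext x
    exact hc.comm g x
  rw [this]

theorem IsConj.norm_one {b : L} (hb0 : b ≠ 0) (hb : c b = b⁻¹) (σ : L →+* ℂ) : ‖σ b‖ = 1 := by
  have h1 := hc σ b
  rw [hb, map_inv₀] at h1
  have h2 : σ b ≠ 0 := (map_ne_zero σ).2 hb0
  have h3 : σ b * (starRingEnd ℂ) (σ b) = 1 := by rw [← h1, mul_inv_cancel₀ h2]
  rw [Complex.mul_conj, Complex.normSq_eq_norm_sq] at h3
  have h4 : ‖σ b‖ ^ 2 = 1 := by exact_mod_cast h3
  exact (pow_eq_one_iff_of_nonneg (norm_nonneg _) two_ne_zero).1 h4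

theorem IsConj.ord_c (v : Pl L) {b : L} (hb : b ≠ 0) : ord v (c b) = ord (act c v) b := by
  have h := ord_act c (act c v) hb
  rwa [hc.act_invol] at h

theorem IsConj.ord_odd (v : Pl L) {b : L} (hb0 : b ≠ 0) (hb : c b = b⁻¹) :
    ord (act c v) b = - ord v b := by
  rw [← hc.ord_c v hb0, hb, ord_inv v hb0]

/-- Elements with the same valuations and absolute values one agree up to roots of unity. -/
theorem IsConj.pow_eq {a b : L} (ha0 : a ≠ 0) (hb0 : b ≠ 0) (ha : c a = a⁻¹) (hb : c b = b⁻¹)
    (h : ∀ v : Pl L, ord v a = ord v b) :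
    a ^ NumberField.Units.torsionOrder L = b ^ NumberField.Units.torsionOrder L := by
  have hab0 : a / b ≠ 0 := div_ne_zero ha0 hb0
  have h1 : c (a / b) = (a / b)⁻¹ := by
    rw [map_div₀, ha, hb, inv_div_inv, inv_div]
  have h2 := pow_torsion (kron hab0 (fun σ => hc.norm_one hab0 h1 σ) (fun v => by
    rw [ord_div v ha0 hb0, h v, sub_self]))
  rw [div_pow, div_eq_one_iff_eq (pow_ne_zero _ hb0)] at h2
  exact h2

end

section

open Classical in
/-- The elements `Γ v` of absolute value one with valuation `h` at `v` and `- h` at the conjugate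
place. -/
theorem exists_Gamma {c : L ≃ₐ[ℚ] L} (hc : IsConj c) : ∃ (h : ℕ) (Γ : Pl L → L), 0 < h ∧
    (∀ v, Γ v ≠ 0) ∧ (∀ v, c (Γ v) = (Γ v)⁻¹) ∧ (∀ (g : L ≃ₐ[ℚ] L) v, g (Γ v) = Γ (act g v)) ∧
    (∀ v w, ord w (Γ v) = h * ((if w = v then 1 else 0) - (if w = act c v then 1 else 0))) ∧
    (∀ (b : L) (S : Finset (Pl L)), b ≠ 0 → c b = b⁻¹ → (∀ v, ord v b ≠ 0 → v ∈ S) →
      b ^ h = ∏ v ∈ S, Γ v ^ (ord v b).toNat) := by
  obtain ⟨h₀, hh₀, hα⟩ := exists_alpha L
  choose α hα0 hαi hαv hαw using hα
  let R := NumberField.Units.torsionOrder L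
  have hR : 0 < R := NumberField.Units.torsionOrder_pos L
  have hcα : ∀ v, c (α v) ≠ 0 := fun v => (map_ne_zero c).2 (hα0 v)
  let γ : Pl L → L := fun v => α v / c (α v)
  have hγ0 : ∀ v, γ v ≠ 0 := fun v => div_ne_zero (hα0 v) (hcα v)
  have hordα : ∀ v w, ord w (α v) = h₀ * (if w = v then 1 else 0) := by
    intro v w
    split_ifs with h
    · rw [h, hαv, mul_one]
    · rw [hαw v w h, mul_zero]
  have hγc : ∀ v, c (γ v) = (γ v)⁻¹ := by
    intro v
    change c (α v / c (α v)) = (α v / c (α v))⁻¹
    rw [map_div₀, hc.invol, inv_div]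
  have hγord : ∀ v w, ord w (γ v) =
      h₀ * ((if w = v then 1 else 0) - (if w = act c v then 1 else 0)) := by
    intro v w
    change ord w (α v / c (α v)) = _
    rw [ord_div w (hα0 v) (hcα v), hc.ord_c w (hα0 v), hordα, hordα, ← mul_sub]
    have : (act c w = v) ↔ (w = act c v) := by
      constructor
      · rintro rfl; rw [hc.act_invol]
      · rintro rfl; rw [hc.act_invol]
    simp only [this]
  have hcg : ∀ (g : L ≃ₐ[ℚ] L) (b : L), c b = b⁻¹ → c (g b) = (g b)⁻¹ := by
    intro g b hb
    rw [← hc.comm, hb, map_inv₀]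
  refine ⟨h₀ * R, fun v => γ v ^ R, Nat.mul_pos hh₀ hR, fun v => pow_ne_zero _ (hγ0 v), ?_, ?_, ?_,
    ?_⟩
  · intro v
    rw [map_pow, hγc, inv_pow]
  · intro g v
    rw [map_pow]
    refine hc.pow_eq ((map_ne_zero g).2 (hγ0 v)) (hγ0 _) (hcg g _ (hγc v)) (hγc _) fun w => ?_
    have h1 : ord w (g (γ v)) = ord (act g.symm w) (γ v) := by
      have := ord_act g (act g.symm w) (hγ0 v)
      rw [← act_mul] at this
      have e : g * g.symm = 1 := by
        ext x
        exact g.apply_symm_apply x
      rwa [e, act_one] at this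
    have e2 : ∀ u : Pl L, act g.symm w = u ↔ w = act g u := by
      intro u
      have e : g.symm * g = 1 := by
        ext x
        exact g.symm_apply_apply x
      have e' : g * g.symm = 1 := by
        ext x
        exact g.apply_symm_apply x
      constructor
      · rintro rfl; rw [← act_mul, e', act_one]
      · rintro rfl; rw [← act_mul, e, act_one]
    rw [h1, hγord, hγord]
    simp only [e2, hc.act_comm]
  · intro v w
    rw [ord_pow w (hγ0 v), hγord]
    push_cast
    ring
  · intro b S hb0 hb hS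
    have hprod0 : ∏ v ∈ S, γ v ^ (ord v b).toNat ≠ 0 :=
      Finset.prod_ne_zero_iff.2 fun v _ => pow_ne_zero _ (hγ0 v)
    have key : (b ^ h₀) ^ R = (∏ v ∈ S, γ v ^ (ord v b).toNat) ^ R := by
      refine hc.pow_eq (pow_ne_zero _ hb0) hprod0 (by rw [map_pow, hb, inv_pow]) ?_ fun w => ?_
      · rw [map_prod, ← Finset.prod_inv_distrib]
        refine Finset.prod_congr rfl fun v _ => ?_
        rw [map_pow, hγc, inv_pow]
      · rw [ord_pow w hb0, ord_prod w S _ (fun v _ => pow_ne_zero _ (hγ0 v))]
        have h1 : ∀ v ∈ S, ord w (γ v ^ (ord v b).toNat) =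
            h₀ * ((if w = v then ((ord v b).toNat : ℤ) else 0) -
              (if act c w = v then ((ord v b).toNat : ℤ) else 0)) := by
          intro v _
          rw [ord_pow w (hγ0 v), hγord]
          have : (w = act c v) ↔ (act c w = v) := by
            constructor
            · rintro rfl; rw [hc.act_invol]
            · rintro rfl; rw [hc.act_invol]
          simp only [this]
          split_ifs <;> ring
        rw [Finset.sum_congr rfl h1, ← Finset.mul_sum, Finset.sum_sub_distrib,
          Finset.sum_ite_eq, Finset.sum_ite_eq]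
        have h2 : (if w ∈ S then ((ord w b).toNat : ℤ) else 0) = ((ord w b).toNat : ℤ) := by
          split_ifs with h
          · rfl
          · have : ord w b = 0 := by
              by_contra hne
              exact h (hS w hne)
            rw [this]; rfl
        have h3 : (if act c w ∈ S then ((ord (act c w) b).toNat : ℤ) else 0) =
            ((ord (act c w) b).toNat : ℤ) := by
          split_ifs with h
          · rfl
          · have : ord (act c w) b = 0 := by
              by_contra hne
              exact h (hS _ hne)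
            rw [this]; rfl
        rw [h2, h3, hc.ord_odd w hb0 hb]
        congr 1
        omega
    change b ^ (h₀ * R) = ∏ v ∈ S, (γ v ^ R) ^ (ord v b).toNat
    rw [pow_mul, key, ← Finset.prod_pow]
    refine Finset.prod_congr rfl fun v _ => ?_
    rw [← pow_mul, ← pow_mul, mul_comm]

end

end Pool.Agent.V8H77.NT
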