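import Mathlib

/-!
# Valuations of a number field, written additively
-/

set_option autoImplicit false

open NumberField IsDedekindDomain

namespace Pool.Agent.V8H77.NT

variable {L : Type} [Field L] [NumberField L]

/-- The finite places of `L`. -/
abbrev Pl (L : Type) [Field L] [NumberField L] := HeightOneSpectrum (𝓞 L)

/-- The normalised additive valuation. -/
noncomputable def ord (v : Pl L) (b : L) : ℤ := - WithZero.log (v.valuation L b)

theorem val_ne {v : Pl L} {b : L} (hb : b ≠ 0) : v.valuation L b ≠ 0 :=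
  (Valuation.ne_zero_iff _).2 hb

theorem ord_mul (v : Pl L) {a b : L} (ha : a ≠ 0) (hb : b ≠ 0) :
    ord v (a * b) = ord v a + ord v b := by
  rw [ord, ord, ord, map_mul, WithZero.log_mul (val_ne ha) (val_ne hb)]
  ring

theorem ord_one (v : Pl L) : ord v (1 : L) = 0 := by
  rw [ord, map_one, WithZero.log_one, neg_zero]

theorem ord_inv (v : Pl L) {b : L} (hb : b ≠ 0) : ord v b⁻¹ = - ord v b := by
  have := ord_mul v hb (inv_ne_zero hb)
  rw [mul_inv_cancel₀ hb, ord_one] at this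
  linarith

theorem ord_div (v : Pl L) {a b : L} (ha : a ≠ 0) (hb : b ≠ 0) :
    ord v (a / b) = ord v a - ord v b := by
  rw [div_eq_mul_inv, ord_mul v ha (inv_ne_zero hb), ord_inv v hb]
  ring

theorem ord_pow (v : Pl L) {b : L} (hb : b ≠ 0) (n : ℕ) : ord v (b ^ n) = n * ord v b := by
  induction n with
  | zero => simp [ord_one]
  | succ n ih => rw [pow_succ, ord_mul v (pow_ne_zero _ hb) hb, ih]; push_cast; ring

theorem ord_zpow (v : Pl L) {b : L} (hb : b ≠ 0) (n : ℤ) : ord v (b ^ n) = n * ord v b := by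
  obtain ⟨m, rfl | rfl⟩ := n.eq_nat_or_neg
  · rw [zpow_natCast, ord_pow v hb]
  · rw [zpow_neg, zpow_natCast, ord_inv v (pow_ne_zero _ hb), ord_pow v hb]
    ring

theorem ord_prod (v : Pl L) {ι : Type} (S : Finset ι) (f : ι → L) (hf : ∀ i ∈ S, f i ≠ 0) :
    ord v (∏ i ∈ S, f i) = ∑ i ∈ S, ord v (f i) := by
  classical
  induction S using Finset.induction_on with
  | empty => simp [ord_one]
  | insert a s ha ih =>
    rw [Finset.prod_insert ha, Finset.sum_insert ha, ord_mul v (hf a (Finset.mem_insert_self _ _))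
      (Finset.prod_ne_zero_iff.2 fun i hi => hf i (Finset.mem_insert_of_mem hi)),
      ih fun i hi => hf i (Finset.mem_insert_of_mem hi)]

theorem ord_nonneg_iff (v : Pl L) {b : L} (hb : b ≠ 0) : 0 ≤ ord v b ↔ v.valuation L b ≤ 1 := by
  rw [ord, Left.nonneg_neg_iff, ← WithZero.log_one (M := ℤ),
    WithZero.log_le_log (val_ne hb) one_ne_zero]

theorem isIntegral_of_ord {b : L} (hb : b ≠ 0) (h : ∀ v : Pl L, 0 ≤ ord v b) : IsIntegral ℤ b := by
  have h1 := HeightOneSpectrum.mem_integers_of_valuation_le_one (R := 𝓞 L) L b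
    (fun v => (ord_nonneg_iff v hb).1 (h v))
  obtain ⟨y, rfl⟩ := h1
  exact y.isIntegral_coe

theorem ord_nonneg (v : Pl L) {b : L} (hb : b ≠ 0) (h : IsIntegral ℤ b) : 0 ≤ ord v b := by
  rw [ord_nonneg_iff v hb]
  exact HeightOneSpectrum.valuation_le_one (K := L) v (⟨b, h⟩ : 𝓞 L)

/-- Characterisation on the integers. -/
theorem le_ord_iff (v : Pl L) {r : 𝓞 L} (hr : r ≠ 0) (n : ℕ) :
    (n : ℤ) ≤ ord v (r : L) ↔ r ∈ v.asIdeal ^ n := by
  have h1 : v.valuation L (r : L) = v.intValuation r := HeightOneSpectrum.valuation_of_algebraMap v r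
  have h0 : v.intValuation r ≠ 0 := HeightOneSpectrum.intValuation_ne_zero v r hr
  rw [← HeightOneSpectrum.intValuation_le_pow_iff_mem, ord, h1, le_neg]
  rw [WithZero.log_le_iff_le_exp h0]

theorem ord_eq_of_forall (v w : Pl L) {r s : 𝓞 L} (hr : r ≠ 0) (hs : s ≠ 0)
    (h : ∀ n : ℕ, r ∈ v.asIdeal ^ n ↔ s ∈ w.asIdeal ^ n) : ord v (r : L) = ord w (s : L) := by
  have hr' : (r : L) ≠ 0 := by simpa using hr
  have hs' : (s : L) ≠ 0 := by simpa using hs
  obtain ⟨a, ha⟩ := Int.eq_ofNat_of_zero_le (ord_nonneg v hr' r.isIntegral_coe)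
  obtain ⟨b, hb⟩ := Int.eq_ofNat_of_zero_le (ord_nonneg w hs' s.isIntegral_coe)
  have h1 := (le_ord_iff w hs a).2 ((h a).1 ((le_ord_iff v hr a).1 ha.ge))
  have h2 := (le_ord_iff v hr b).2 ((h b).2 ((le_ord_iff w hs b).1 hb.ge))
  omega

/-- The action of the automorphisms on the places. -/
noncomputable def act (g : L ≃ₐ[ℚ] L) (v : Pl L) : Pl L :=
  HeightOneSpectrum.equivOfRingEquiv (RingOfIntegers.mapRingEquiv g.toRingEquiv) v

theorem mem_act (g : L ≃ₐ[ℚ] L) (v : Pl L) (r : 𝓞 L) (n : ℕ) :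
    RingOfIntegers.mapRingEquiv g.toRingEquiv r ∈ (act g v).asIdeal ^ n ↔ r ∈ v.asIdeal ^ n := by
  have h1 : (act g v).asIdeal = v.asIdeal.map (RingOfIntegers.mapRingEquiv g.toRingEquiv) :=
    Ideal.comap_symm _
  rw [h1, ← Ideal.map_pow]
  constructor
  · intro h
    rw [Ideal.mem_map_of_equiv] at h
    obtain ⟨x, hx, hxr⟩ := h
    rwa [← (RingOfIntegers.mapRingEquiv g.toRingEquiv).injective hxr]
  · intro h
    exact Ideal.mem_map_of_mem _ h

theorem ord_act (g : L ≃ₐ[ℚ] L) (v : Pl L) {b : L} (hb : b ≠ 0) : ord (act g v) (g b) = ord v b := by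
  have key : ∀ r : 𝓞 L, r ≠ 0 → ord (act g v) (g (r : L)) = ord v (r : L) := by
    intro r hr
    have := ord_eq_of_forall (act g v) v (r := RingOfIntegers.mapRingEquiv g.toRingEquiv r)
      (s := r) (by simpa using hr) hr (mem_act g v r)
    exact this
  obtain ⟨r, s, hs, rfl⟩ := IsFractionRing.div_surjective (A := 𝓞 L) b
  have hs0 : s ≠ 0 := nonZeroDivisors.ne_zero hs
  have hr0 : r ≠ 0 := by
    rintro rfl
    simp at hb
  have hr' : (algebraMap (𝓞 L) L r) ≠ 0 := by simpa using hr0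
  have hs' : (algebraMap (𝓞 L) L s) ≠ 0 := by simpa using hs0
  rw [map_div₀, ord_div _ (by simpa using hr0) (by simpa using hs0), ord_div _ hr' hs']
  rw [show g (algebraMap (𝓞 L) L r) = g (r : L) from rfl, key r hr0,
    show g (algebraMap (𝓞 L) L s) = g (s : L) from rfl, key s hs0]

theorem mem_act_one (g : L ≃ₐ[ℚ] L) (v : Pl L) (r : 𝓞 L) :
    RingOfIntegers.mapRingEquiv g.toRingEquiv r ∈ (act g v).asIdeal ↔ r ∈ v.asIdeal := by
  have := mem_act g v r 1
  rwa [pow_one, pow_one] at this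

theorem act_mul (g h : L ≃ₐ[ℚ] L) (v : Pl L) : act (g * h) v = act g (act h v) := by
  apply HeightOneSpectrum.ext
  ext s
  obtain ⟨r, rfl⟩ := (RingOfIntegers.mapRingEquiv (g * h).toRingEquiv).surjective s
  rw [mem_act_one]
  have : RingOfIntegers.mapRingEquiv (g * h).toRingEquiv r =
    RingOfIntegers.mapRingEquiv g.toRingEquiv (RingOfIntegers.mapRingEquiv h.toRingEquiv r) := rfl
  rw [this, mem_act_one, mem_act_one]

theorem act_one (v : Pl L) : act 1 v = v := by
  apply HeightOneSpectrum.ext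
  rw [show (act 1 v).asIdeal = v.asIdeal.map (RingOfIntegers.mapRingEquiv
    (1 : L ≃ₐ[ℚ] L).toRingEquiv) from Ideal.comap_symm _]
  exact Ideal.map_id _

variable (L) in
/-- Generators of powers of the prime ideals. -/
theorem exists_alpha : ∃ h₀ : ℕ, 0 < h₀ ∧ ∀ v : Pl L, ∃ α : L, α ≠ 0 ∧ IsIntegral ℤ α ∧
    ord v α = h₀ ∧ ∀ w : Pl L, w ≠ v → ord w α = 0 := by
  classical
  refine ⟨classNumber L, Fintype.card_pos, fun v => ?_⟩
  have hprin : (v.asIdeal ^ classNumber L).IsPrincipal := by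
    have h1 := pow_card_eq_one (G := ClassGroup (𝓞 L))
      (x := ClassGroup.mk0 ⟨v.asIdeal, mem_nonZeroDivisors_of_ne_zero v.ne_bot⟩)
    rw [← map_pow, ClassGroup.mk0_eq_one_iff] at h1
    exact h1
  obtain ⟨r, hr⟩ := hprin.principal
  have hr0 : r ≠ 0 := by
    rintro rfl
    have : v.asIdeal ^ classNumber L = ⊥ := by rw [hr]; simp
    exact v.ne_bot (by by_contra hne; exact pow_ne_zero _ hne this)
  have hr' : (r : L) ≠ 0 := by simpa using hr0
  have hmem : ∀ (w : Pl L) (n : ℕ), r ∈ w.asIdeal ^ n ↔ w.asIdeal ^ n ∣ v.asIdeal ^ classNumber L := by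
    intro w n
    rw [hr, Ideal.dvd_iff_le]
    exact (Ideal.span_singleton_le_iff_mem _).symm
  refine ⟨r, hr', r.isIntegral_coe, ?_, fun w hw => ?_⟩
  · have h1 := (le_ord_iff v hr0 (classNumber L)).2 ((hmem _ _).2 dvd_rfl)
    by_contra hne
    have h2 : ((classNumber L + 1 : ℕ) : ℤ) ≤ ord v (r : L) := by push_cast; omega
    have h3 := (hmem _ _).1 ((le_ord_iff v hr0 _).1 h2)
    have h4 := (pow_dvd_pow_iff v.prime.ne_zero v.prime.not_isUnit).1 h3
    omega
  · by_contra hne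
    have h0 := ord_nonneg w hr' r.isIntegral_coe
    have h2 : ((1 : ℕ) : ℤ) ≤ ord w (r : L) := by push_cast; omega
    have h3 := (hmem _ _).1 ((le_ord_iff w hr0 _).1 h2)
    rw [pow_one] at h3
    have h4 := w.prime.dvd_of_dvd_pow h3
    have h5 := (v.isMaximal.eq_of_le w.isPrime.ne_top ((Ideal.dvd_iff_le).1 h4))
    exact hw (HeightOneSpectrum.ext h5.symm)

theorem kron {b : L} (hb : b ≠ 0) (h1 : ∀ σ : L →+* ℂ, ‖σ b‖ = 1) (h2 : ∀ v : Pl L, ord v b = 0) :
    ∃ k : ℕ, 0 < k ∧ b ^ k = 1 := by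
  obtain ⟨k, hk, h⟩ := NumberField.Embeddings.pow_eq_one_of_norm_eq_one L ℂ
    (isIntegral_of_ord hb fun v => (h2 v).ge) h1
  exact ⟨k, hk, h⟩

end Pool.Agent.V8H77.NT
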