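import Pool.Agent.V8H77.NT.Gamma

/-!
# Products of the elements attached to the places over `p`
-/

set_option autoImplicit false

open NumberField IsDedekindDomain

namespace Pool.Agent.V8H77.NT

variable {L : Type} [Field L] [NumberField L]

/-- The elements of `exists_Gamma`. -/
structure GData (L : Type) [Field L] [NumberField L] (c : L ≃ₐ[ℚ] L) where
  conj : IsConj c
  h : ℕ
  Γ : Pl L → L
  h_pos : 0 < h
  ne_zero : ∀ v, Γ v ≠ 0
  c_eq : ∀ v, c (Γ v) = (Γ v)⁻¹
  g_eq : ∀ (g : L ≃ₐ[ℚ] L) v, g (Γ v) = Γ (act g v)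
  ord_self : ∀ v, act c v ≠ v → ord v (Γ v) = h
  ord_conj : ∀ v, act c v ≠ v → ord (act c v) (Γ v) = - h
  ord_fixed : ∀ v, act c v = v → ord v (Γ v) = 0
  ord_other : ∀ v w, w ≠ v → w ≠ act c v → ord w (Γ v) = 0
  decomp : ∀ (b : L) (S : Finset (Pl L)), b ≠ 0 → c b = b⁻¹ → (∀ v, ord v b ≠ 0 → v ∈ S) →
      b ^ h = ∏ v ∈ S, Γ v ^ (ord v b).toNat

theorem exists_GData {c : L ≃ₐ[ℚ] L} (hc : IsConj c) : Nonempty (GData L c) := by
  classical
  obtain ⟨h, Γ, h1, h2, h3, h4, h5, h6⟩ := exists_Gamma hc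
  refine ⟨⟨hc, h, Γ, h1, h2, h3, h4, ?_, ?_, ?_, ?_, h6⟩⟩
  · intro v hv
    rw [h5, if_pos rfl, if_neg (Ne.symm hv)]; ring
  · intro v hv
    rw [h5, if_neg hv, if_pos rfl]; ring
  · intro v hv
    rw [h5, if_pos rfl, if_pos hv.symm]; ring
  · intro v w hw hw'
    rw [h5, if_neg hw, if_neg hw']; ring

/-- The places over `p`. -/
def PX (p : ℕ) (L : Type) [Field L] [NumberField L] : Type := {v : Pl L // ord v (p : L) ≠ 0}

variable {p : ℕ} [Fact p.Prime]

theorem p_ne : (p : L) ≠ 0 := Nat.cast_ne_zero.2 (Fact.out : p.Prime).ne_zero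

theorem ord_p_nonneg (v : Pl L) : 0 ≤ ord v (p : L) :=
  ord_nonneg v p_ne (isIntegral_natCast p)

instance : Finite (PX p L) := by
  have hp : (p : 𝓞 L) ≠ 0 := Nat.cast_ne_zero.2 (Fact.out : p.Prime).ne_zero
  have h1 : {v : Pl L | ord v (p : L) ≠ 0}.Finite := by
    refine (Ideal.finite_factors (R := 𝓞 L) (I := Ideal.span {(p : 𝓞 L)}) (by
      simpa using hp)).subset ?_
    intro v hv
    have h2 : ((1 : ℕ) : ℤ) ≤ ord v (((p : 𝓞 L)) : L) := by
      have h3 := ord_p_nonneg (p := p) v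
      have e : (((p : 𝓞 L)) : L) = (p : L) := by simp
      rw [e]
      have : ord v (p : L) ≠ 0 := hv
      push_cast
      omega
    have h4 := (le_ord_iff v hp 1).1 h2
    rw [pow_one] at h4
    change v.asIdeal ∣ Ideal.span {(p : 𝓞 L)}
    rw [Ideal.dvd_iff_le]
    exact (Ideal.span_singleton_le_iff_mem _).2 h4
  exact h1

noncomputable instance : Fintype (PX p L) := Fintype.ofFinite _

theorem ord_act_p (g : L ≃ₐ[ℚ] L) (v : Pl L) : ord (act g v) (p : L) = ord v (p : L) := by
  have := ord_act g v (b := (p : L)) p_ne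
  rwa [map_natCast] at this

/-- The action of the automorphisms on the places over `p`. -/
noncomputable def actX (g : L ≃ₐ[ℚ] L) (x : PX p L) : PX p L :=
  ⟨act g x.1, by rw [ord_act_p]; exact x.2⟩

theorem actX_mul (g h : L ≃ₐ[ℚ] L) (x : PX p L) : actX (g * h) x = actX g (actX h x) :=
  Subtype.ext (act_mul g h x.1)

theorem actX_one (x : PX p L) : actX 1 x = x := Subtype.ext (act_one x.1)

/-- The permutation of the places over `p`. -/
noncomputable def permX (g : L ≃ₐ[ℚ] L) : Equiv.Perm (PX p L) where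
  toFun := actX g
  invFun := actX g⁻¹
  left_inv x := by rw [← actX_mul, inv_mul_cancel, actX_one]
  right_inv x := by rw [← actX_mul, mul_inv_cancel, actX_one]

/-- The ramification index. -/
noncomputable def eX (x : PX p L) : ℕ := (ord x.1 (p : L)).toNat

theorem eX_eq (x : PX p L) : (eX x : ℤ) = ord x.1 (p : L) :=
  Int.toNat_of_nonneg (ord_p_nonneg x.1)

theorem eX_pos (x : PX p L) : 0 < eX x := by
  have h1 := ord_p_nonneg (p := p) x.1
  have h2 := x.2
  have h3 := eX_eq x
  omega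

theorem eX_act (g : L ≃ₐ[ℚ] L) (x : PX p L) : eX (actX g x) = eX x := by
  rw [eX, eX]
  congr 1
  exact ord_act_p g x.1

namespace GData

variable {c : L ≃ₐ[ℚ] L} (D : GData L c)

/-- Odd functions on the places. -/
def Odd (_ : GData L c) (T : PX p L → ℤ) : Prop := ∀ x, T (actX c x) = - T x

/-- The product attached to a function on the places. -/
noncomputable def G (T : PX p L → ℤ) : L := ∏ x : PX p L, D.Γ x.1 ^ (T x).toNat

theorem G_ne_zero (T : PX p L → ℤ) : D.G T ≠ 0 :=
  Finset.prod_ne_zero_iff.2 fun x _ => pow_ne_zero _ (D.ne_zero x.1)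

theorem c_G (T : PX p L → ℤ) : c (D.G T) = (D.G T)⁻¹ := by
  rw [G, map_prod, ← Finset.prod_inv_distrib]
  refine Finset.prod_congr rfl fun v _ => ?_
  rw [map_pow, D.c_eq, inv_pow]

theorem g_G (g : L ≃ₐ[ℚ] L) (T : PX p L → ℤ) : g (D.G T) = D.G (fun x => T (actX g⁻¹ x)) := by
  rw [G, map_prod, G]
  refine Fintype.prod_equiv (permX g) _ _ fun x => ?_
  change g (D.Γ x.1 ^ (T x).toNat) = D.Γ (act g x.1) ^ (T (actX g⁻¹ (actX g x))).toNat
  rw [map_pow, D.g_eq, ← actX_mul, inv_mul_cancel, actX_one]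

theorem ord_Gamma_ne (x : PX p L) {w : Pl L} (hw : ord w (p : L) = 0) : ord w (D.Γ x.1) = 0 := by
  refine D.ord_other _ _ ?_ ?_
  · rintro rfl; exact x.2 hw
  · rintro rfl
    rw [ord_act_p] at hw
    exact x.2 hw

theorem ord_G_other (T : PX p L → ℤ) {w : Pl L} (hw : ord w (p : L) = 0) : ord w (D.G T) = 0 := by
  rw [G, ord_prod w _ _ fun x _ => pow_ne_zero _ (D.ne_zero x.1)]
  refine Finset.sum_eq_zero fun x _ => ?_
  rw [ord_pow w (D.ne_zero x.1), D.ord_Gamma_ne x hw, mul_zero]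

include D in
theorem act_c_c (x : PX p L) : actX c (actX c x) = x := Subtype.ext (D.conj.act_invol x.1)

theorem ord_G {T : PX p L → ℤ} (hT : D.Odd T) (x : PX p L) : ord x.1 (D.G T) = D.h * T x := by
  classical
  rw [G, ord_prod x.1 _ _ fun y _ => pow_ne_zero _ (D.ne_zero y.1)]
  have h1 : ∀ y ∈ (Finset.univ : Finset (PX p L)), ord x.1 (D.Γ y.1 ^ (T y).toNat) =
      (if x = y then (D.h : ℤ) * ((T x).toNat : ℤ) else 0) -
        (if actX c x = y then (D.h : ℤ) * ((T (actX c x)).toNat : ℤ) else 0) := by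
    intro y _
    rw [ord_pow x.1 (D.ne_zero y.1)]
    by_cases hfix : actX c x = x
    · have hTx : T x = 0 := by
        have := hT x
        rw [hfix] at this
        omega
      by_cases hxy : x = y
      · subst hxy
        rw [if_pos rfl, if_pos hfix, hfix, hTx]
        simp
      · have h2 : ¬ actX c x = y := by rw [hfix]; exact hxy
        rw [if_neg hxy, if_neg h2]
        rw [D.ord_other y.1 x.1 (fun h => hxy (Subtype.ext h)) (fun h => hxy ?_)]
        · ring
        · have h3 : x = actX c y := Subtype.ext h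
          rw [← hfix, h3, D.act_c_c]
    · have hfix' : act c x.1 ≠ x.1 := fun h => hfix (Subtype.ext h)
      by_cases hxy : x = y
      · subst hxy
        rw [if_pos rfl, if_neg hfix, D.ord_self _ hfix']
        ring
      · rw [if_neg hxy]
        by_cases h2 : actX c x = y
        · subst h2
          rw [if_pos rfl]
          have h4 : ord x.1 (D.Γ (act c x.1)) = - D.h := by
            have := D.ord_conj (act c x.1) (by rw [D.conj.act_invol]; exact Ne.symm hfix')
            rwa [D.conj.act_invol] at this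
          change _ * ord x.1 (D.Γ (act c x.1)) = _
          rw [h4]; ring
        · rw [if_neg h2, D.ord_other y.1 x.1 (fun h => hxy (Subtype.ext h)) (fun h => h2 ?_)]
          · ring
          · have h3 : x = actX c y := Subtype.ext h
            rw [h3, D.act_c_c]
  rw [Finset.sum_congr rfl h1, Finset.sum_sub_distrib, Finset.sum_ite_eq, Finset.sum_ite_eq,
    if_pos (Finset.mem_univ _), if_pos (Finset.mem_univ _), hT x, ← mul_sub]
  congr 1
  omega

theorem G_neg {T : PX p L → ℤ} (hT : D.Odd T) : D.G (fun x => - T x) = (D.G T)⁻¹ := by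
  rw [G, G, ← Finset.prod_inv_distrib]
  refine Fintype.prod_equiv (permX c) _ _ fun x => ?_
  change D.Γ x.1 ^ (- T x).toNat = (D.Γ (act c x.1) ^ (T (actX c x)).toNat)⁻¹
  rw [← D.g_eq, D.c_eq, hT x, inv_pow, inv_inv]

theorem G_zero : D.G (fun _ : PX p L => 0) = 1 := by
  rw [G]
  exact Finset.prod_eq_one fun x _ => by simp

theorem G_inj {T T' : PX p L → ℤ} (hT : D.Odd T) (hT' : D.Odd T') (h : D.G T = D.G T') : T = T' := by
  funext x
  have h1 := D.ord_G hT x
  rw [h, D.ord_G hT' x] at h1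
  have h2 : (D.h : ℤ) ≠ 0 := by
    have := D.h_pos
    omega
  exact (mul_left_cancel₀ h2 h1).symm

/-- The square of an element with `a * c a = p ^ m`, divided by `p ^ m`. -/
theorem decomp_weil {a : L} {m : ℕ} (hai : IsIntegral ℤ a) (ha : a * c a = (p : L) ^ m) :
    ∃ T : PX p L → ℤ, D.Odd T ∧ (∀ x, |T x| ≤ m * eX x) ∧
      a ^ (2 * D.h) = (p : L) ^ (m * D.h) * D.G T := by
  have hp : (p : L) ≠ 0 := p_ne
  have hpm : (p : L) ^ m ≠ 0 := pow_ne_zero m hp
  have ha0 : a ≠ 0 := by
    rintro rfl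
    rw [zero_mul] at ha
    exact hpm ha.symm
  have hca0 : c a ≠ 0 := (map_ne_zero c).2 ha0
  have hcai : IsIntegral ℤ (c a) := hai.map (c : L →+* L).toIntAlgHom
  let b : L := a ^ 2 / (p : L) ^ m
  have hb0 : b ≠ 0 := div_ne_zero (pow_ne_zero 2 ha0) hpm
  have hcb : c b = b⁻¹ := by
    change c (a ^ 2 / (p : L) ^ m) = (a ^ 2 / (p : L) ^ m)⁻¹
    rw [map_div₀, map_pow, map_pow, map_natCast, ← ha]
    field_simp
  have hord : ∀ v : Pl L, ord v b = 2 * ord v a - m * ord v (p : L) := by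
    intro v
    change ord v (a ^ 2 / (p : L) ^ m) = _
    rw [ord_div v (pow_ne_zero 2 ha0) hpm, ord_pow v ha0, ord_pow v hp]
    push_cast
    ring
  have hsum : ∀ v : Pl L, ord v a + ord v (c a) = m * ord v (p : L) := by
    intro v
    rw [← ord_mul v ha0 hca0, ha, ord_pow v hp]
  have hbound : ∀ v : Pl L, |ord v b| ≤ m * ord v (p : L) := by
    intro v
    have h1 := ord_nonneg v ha0 hai
    have h2 := ord_nonneg v hca0 hcai
    have h3 := hsum v
    rw [hord v, abs_le]
    constructor <;> linarith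
  let T : PX p L → ℤ := fun x => ord x.1 b
  refine ⟨T, fun x => ?_, fun x => ?_, ?_⟩
  · exact D.conj.ord_odd x.1 hb0 hcb
  · rw [eX_eq]
    exact hbound x.1
  · classical
    let S : Finset (Pl L) := (Finset.univ : Finset (PX p L)).map ⟨Subtype.val, Subtype.val_injective⟩
    have hS : ∀ v, ord v b ≠ 0 → v ∈ S := by
      intro v hv
      have h1 : ord v (p : L) ≠ 0 := by
        intro h0
        have h2 := hbound v
        rw [h0, mul_zero] at h2
        exact hv (abs_nonpos_iff.1 h2)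
      exact Finset.mem_map.2 ⟨(⟨v, h1⟩ : PX p L), Finset.mem_univ (α := PX p L) _, rfl⟩
    have h1 := D.decomp b S hb0 hcb hS
    have h2 : b ^ D.h = D.G T := h1.trans (Finset.prod_map _ _ _)
    rw [← h2]
    change a ^ (2 * D.h) = (p : L) ^ (m * D.h) * (a ^ 2 / (p : L) ^ m) ^ D.h
    rw [div_pow, ← pow_mul, ← pow_mul, mul_div_cancel₀ _ (pow_ne_zero _ hp)]

end GData

end Pool.Agent.V8H77.NT
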